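import Pool.Agent.R295.LatLev.Sumset

/-!
# Levels of arrangements of lines and the sumset `Γ + Γ - Γ`

A line `y = a x + b` is the pair `(a, b)`, so a set of lines is a set of points of the plane.
`height`, `level`, `kLevel`, `IsVertex` and `complexity` are defined in
`Pool/Agent/KLev/Levels.lean` (namespace `KLev.Levels`).
-/

set_option autoImplicit false

namespace Pool.Agent.Results.MP_a08d0a_co.AdditiveStructure

open KLev.Levels Finset Pool.Agent.Y375.FD Pool.Agent.R295.LatLev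

open scoped Pointwise

lemma complexity_le_VV (Γ : Finset (ℝ × ℝ)) (k : ℕ) : complexity Γ k ≤ (VV Γ k).ncard :=
  Set.ncard_le_ncard (fun _ h => V_of_isVertex h) (VV_fin Γ k)

/-- Let `Γ` be a finite set of lines, `n` its size and `M = 2 min (k, n - 1 - k) + 1`. There is no
general position assumption.
1. The `k`-level has at most `5 √(|Γ + Γ - Γ| M)` vertices.
2. In particular, if `|Γ + Γ| ≤ K n`, then it has at most `5 √(K ^ 3 n M)` vertices. -/
theorem result (Γ : Finset (ℝ × ℝ)) (k : ℕ) :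
    ((complexity Γ k : ℝ) ≤
      5 * Real.sqrt (((Γ + Γ - Γ).card : ℝ) * ((2 * min k (Γ.card - 1 - k) + 1 : ℕ) : ℝ))) ∧
    (∀ K : ℝ, ((Γ + Γ).card : ℝ) ≤ K * Γ.card →
      (complexity Γ k : ℝ) ≤
        5 * Real.sqrt (K ^ 3 * Γ.card * ((2 * min k (Γ.card - 1 - k) + 1 : ℕ) : ℝ))) := by
  have h0 : (complexity Γ k : ℝ) ≤ ((VV Γ k).ncard : ℝ) := Nat.cast_le.mpr (complexity_le_VV Γ k)
  have h1 : (complexity Γ k : ℝ) ≤
      5 * Real.sqrt (((Γ + Γ - Γ).card : ℝ) * ((2 * min k (Γ.card - 1 - k) + 1 : ℕ) : ℝ)) :=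
    h0.trans (sumset Γ k)
  refine ⟨h1, ?_⟩
  intro K hK
  refine h1.trans ?_
  apply mul_le_mul_of_nonneg_left _ (by norm_num : (0 : ℝ) ≤ 5)
  apply Real.sqrt_le_sqrt
  apply mul_le_mul_of_nonneg_right _ (Nat.cast_nonneg _)
  rcases Γ.eq_empty_or_nonempty with rfl | hne
  · simp
  · have hn : (0 : ℝ) < Γ.card := Nat.cast_pos.mpr hne.card_pos
    have h2 := Finset.pluennecke_ruzsa_inequality_nsmul_sub_nsmul_add hne Γ 2 1
    rw [two_nsmul, one_nsmul] at h2
    have h3 : ((Γ + Γ - Γ).card : ℝ) ≤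
        (((Γ + Γ).card : ℝ) / (Γ.card : ℝ)) ^ (2 + 1) * (Γ.card : ℝ) := by
      have h4 := (NNRat.cast_le (K := ℝ)).mpr h2
      push_cast at h4
      exact h4
    refine h3.trans ?_
    apply mul_le_mul_of_nonneg_right _ hn.le
    apply pow_le_pow_left₀ (by positivity)
    rw [div_le_iff₀ hn]
    exact hK

end Pool.Agent.Results.MP_a08d0a_co.AdditiveStructure
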