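import Pool.Agent.R117.KR.Levels

/-!
# The complexity of a level of a set of lines with an affine symmetry of order `m`, up to `t` lines

A line is a pair (slope, intercept).  `height`, `level`, `kLevel`, `IsVertex` and `complexity` are
defined in `Pool/Agent/R117/KR/Levels.lean` (namespace `Pool.Agent.R117.KR`; the same text as in
`Pool/Agent/KLev/Levels.lean`): the `k`-level is the closure of the set of points on the lines with
exactly `k` lines strictly below, and its complexity is the number of the points where it passes
from one line to another.

Proof idea.  In the plane of the pairs (slope, intercept) a vertex of the `k`-level is a line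
through two of the given points with at most `k` points strictly below and more than `k` points
weakly below.  In coordinates in which the symmetry is a rotation about `0`, half-planes at signed
distance `d` from `0` contain `F (d) = ∑ arccos (d / |z|) / π` points, up to an error `n / m`.  So
all these lines have distances `d` with `|F (d) - k| ≤ n / m + t`, and the number of the pairs of
points on such lines is controlled by the variation of `F` on this interval.
-/

set_option autoImplicit false

namespace Pool.Agent.Results.MP_a08d0a_co.AffineSymmetry

open Pool.Agent.R117.KR

open scoped Classical in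
/-- Let `T p = o + e⁻¹ (ξ e (p - o))`, where `e` is a linear isomorphism of `ℝ²` to `ℂ` and `ξ`
a primitive `m`-th root of unity; this is an affine map of order `m`.  If a finite set `Γ` of lines
(pairs of slope and intercept) differs in at most `t` lines from a finite set `Δ` which is mapped
into itself by `T`, then every level of `Γ` has at most
`(7 (|Γ| + t)² + 5 m t (|Γ| + t)) / m` vertices.  No general position is assumed. -/
theorem result (Γ Δ : Finset (ℝ × ℝ)) (m t : ℕ) (hm : 1 ≤ m) (ξ : ℂ) (hξ : IsPrimitiveRoot ξ m)
    (e : (ℝ × ℝ) ≃ₗ[ℝ] ℂ) (o : ℝ × ℝ) (hΔ : ∀ l ∈ Δ, o + e.symm (ξ * e (l - o)) ∈ Δ)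
    (ht : (Γ \ Δ).card + (Δ \ Γ).card ≤ t) (k : ℕ) :
    m * complexity Γ k ≤ 7 * (Γ.card + t) ^ 2 + 5 * (m * t * (Γ.card + t)) :=
  complexity_bound hm hξ hΔ ht k

end Pool.Agent.Results.MP_a08d0a_co.AffineSymmetry
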