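import Pool.Agent.R800.GL.Sharp

/-!
# A single level of an arrangement of lines whose duals lie in a lattice or in a product set

`height`, `level`, `kLevel`, `IsVertex` and `complexity` are defined in
`Pool/Agent/KLev/Levels.lean` (namespace `KLev.Levels`): a line is a pair (slope, intercept), the
`k`-level is the closure of the set of points on the lines with exactly `k` lines strictly below,
and its complexity is the number of the points where it passes from one line to another. Parallel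
lines and several lines through a common point are allowed.
-/

namespace Pool.Agent.Results.MP_a08d0a_co.GridLines

open KLev.Levels

/-- Let `Γ` be a set of `n` lines, `0 ≤ k < n` and `M = 2 min (k, n - 1 - k) + 1` (so `M ≤ n`).

1. If all lines, as points (slope, intercept) of the plane, lie in a lattice parallelogram
   `{o + i u + j v : 0 ≤ i < A, 0 ≤ j < B}` (`u`, `v` linearly independent), then the `k`-level has
   at most `8 (A B M ^ 2) ^ (1 / 3)` vertices.
2. So if moreover `A B ≤ C n`, then it has at most `8 C ^ (1 / 3) n` vertices.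
3. If the slopes lie in any set `S` of reals and the intercepts in an arithmetic progression with
   `B` terms, then it has at most `8 (|S| ^ 2 B M ^ 2) ^ (1 / 3)` vertices.
4. If the slopes lie in an arithmetic progression with `A` terms and the intercepts in any set `T`
   of reals, then it has at most `8 (A |T| ^ 2 M ^ 2) ^ (1 / 3)` vertices.
5. The bounds 1 and 2 are sharp up to a constant factor for the middle levels of full grids: for
   the arrangement of all `n = N ^ 2` lines `y = a x + b` with integers `0 ≤ a, b < N`, `8 ≤ N`,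
   and all `n / 4 ≤ k < 3 n / 4`, one of the levels `k` and `k + 1` has at least `n / 1024`
   vertices. -/
theorem result :
    (∀ (Γ : Finset (ℝ × ℝ)) (k A B : ℕ) (o u v : ℝ × ℝ), u.1 * v.2 ≠ u.2 * v.1 →
      (∀ l ∈ Γ, ∃ i < A, ∃ j < B, l = o + (i : ℝ) • u + (j : ℝ) • v) →
      (complexity Γ k : ℝ) ≤
        8 * ((A : ℝ) * B * (2 * (min k (Γ.card - 1 - k) : ℕ) + 1) ^ 2) ^ ((1 : ℝ) / 3)) ∧
    (∀ (Γ : Finset (ℝ × ℝ)) (k A B : ℕ) (o u v : ℝ × ℝ) (C : ℝ), u.1 * v.2 ≠ u.2 * v.1 →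
      (∀ l ∈ Γ, ∃ i < A, ∃ j < B, l = o + (i : ℝ) • u + (j : ℝ) • v) → 0 ≤ C →
      (A : ℝ) * B ≤ C * Γ.card → (complexity Γ k : ℝ) ≤ 8 * C ^ ((1 : ℝ) / 3) * Γ.card) ∧
    (∀ (Γ : Finset (ℝ × ℝ)) (k B : ℕ) (S : Finset ℝ) (β ε : ℝ), 0 < ε →
      (∀ l ∈ Γ, l.1 ∈ S ∧ ∃ j < B, l.2 = β + (j : ℕ) * ε) →
      (complexity Γ k : ℝ) ≤
        8 * ((S.card : ℝ) ^ 2 * B * (2 * (min k (Γ.card - 1 - k) : ℕ) + 1) ^ 2) ^
          ((1 : ℝ) / 3)) ∧
    (∀ (Γ : Finset (ℝ × ℝ)) (k A : ℕ) (T : Finset ℝ) (α δ : ℝ), 0 < δ →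
      (∀ l ∈ Γ, (∃ i < A, l.1 = α + (i : ℕ) * δ) ∧ l.2 ∈ T) →
      (complexity Γ k : ℝ) ≤
        8 * ((A : ℝ) * (T.card : ℝ) ^ 2 * (2 * (min k (Γ.card - 1 - k) : ℕ) + 1) ^ 2) ^
          ((1 : ℝ) / 3)) ∧
    (∀ (N k : ℕ) (Γ : Finset (ℝ × ℝ)), 8 ≤ N →
      (∀ l : ℝ × ℝ, l ∈ Γ ↔ ∃ a < N, ∃ b < N, l = ((a : ℝ), (b : ℝ))) →
      N ^ 2 ≤ 4 * k → 4 * k < 3 * N ^ 2 →
      Γ.card = N ^ 2 ∧ N ^ 2 ≤ 512 * (complexity Γ k + complexity Γ (k + 1))) := by
  classical
  refine ⟨?_, ?_, ?_, ?_, ?_⟩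
  · intro Γ k A B o u v huv hΓ
    exact Pool.Agent.R800.GL.lattice Γ k A B o u v huv hΓ
  · intro Γ k A B o u v C huv hΓ hC hAB
    rcases Γ.eq_empty_or_nonempty with rfl | hne
    · rw [Pool.Agent.R800.GL.complexity_empty]
      simp
    refine (Pool.Agent.R800.GL.lattice Γ k A B o u v huv hΓ).trans ?_
    have hn : 1 ≤ Γ.card := Finset.card_pos.mpr hne
    have hM : (2 * (min k (Γ.card - 1 - k) : ℕ) + 1 : ℝ) ≤ Γ.card := by
      have : 2 * min k (Γ.card - 1 - k) + 1 ≤ Γ.card := by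
        rcases Nat.le_total k (Γ.card - 1 - k) with h | h
        · rw [min_eq_left h]; omega
        · rw [min_eq_right h]; omega
      exact_mod_cast this
    have hn0 : (0 : ℝ) ≤ Γ.card := Nat.cast_nonneg _
    have h1 : (A : ℝ) * B * (2 * (min k (Γ.card - 1 - k) : ℕ) + 1) ^ 2 ≤
        C * (Γ.card : ℝ) ^ 3 := by
      have h2 : (2 * (min k (Γ.card - 1 - k) : ℕ) + 1 : ℝ) ^ 2 ≤ (Γ.card : ℝ) ^ 2 :=
        pow_le_pow_left₀ (by positivity) hM 2
      calc (A : ℝ) * B * (2 * (min k (Γ.card - 1 - k) : ℕ) + 1) ^ 2 ≤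
          (C * Γ.card) * (Γ.card : ℝ) ^ 2 :=
            mul_le_mul hAB h2 (by positivity) (by positivity)
        _ = C * (Γ.card : ℝ) ^ 3 := by ring
    have h2 : (C * (Γ.card : ℝ) ^ 3) ^ ((1 : ℝ) / 3) = C ^ ((1 : ℝ) / 3) * Γ.card := by
      rw [Real.mul_rpow hC (by positivity), ← Real.rpow_natCast, ← Real.rpow_mul hn0]
      norm_num
    have h3 := Real.rpow_le_rpow (by positivity) h1 (by norm_num : (0 : ℝ) ≤ 1 / 3)
    rw [h2] at h3
    linarith
  · intro Γ k B S β ε hε hΓ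
    refine Pool.Agent.R800.GL.slopes Γ k S.card B β ε hε ?_ (fun l hl => (hΓ l hl).2)
    apply Finset.card_le_card
    intro x hx
    rw [Finset.mem_image] at hx
    obtain ⟨l, hl, rfl⟩ := hx
    exact (hΓ l hl).1
  · intro Γ k A T α δ hδ hΓ
    refine Pool.Agent.R800.GL.intercepts Γ k A T.card α δ hδ ?_ (fun l hl => (hΓ l hl).1)
    apply Finset.card_le_card
    intro x hx
    rw [Finset.mem_image] at hx
    obtain ⟨l, hl, rfl⟩ := hx
    exact (hΓ l hl).2
  · intro N k Γ hN hΓ h1 h2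
    exact ⟨Pool.Agent.R800.GL.card_full hΓ, Pool.Agent.R800.GL.sharp hN hΓ h1 h2⟩

end Pool.Agent.Results.MP_a08d0a_co.GridLines
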