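import Pool.Agent.R769.KR.Samp

/-!
# A fixed level of random sub-arrangements of lines

The lines are `y = a l * x + B l`, `l : Fin n`. Definitions:

* `Simple a B`: no two of the lines coincide and no three pass through a common point (parallel
  lines are allowed); `level a B k x`: the height of the `(k+1)`-st lowest line above `x`;
  `psi a B k`: the number of abscissae near which the `k`-level does not follow a single line, i.e.
  the number of vertices of the `k`-level (`Pool/Agent/Results/MP_a08d0a_co/SmoothedLevel.lean`),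
* `sub f R`: for a set `R` of indices, the family `f` restricted to `R`, listed in increasing order
  of the indices (`Pool/Agent/Y344/KD/Lines.lean`); `sub a R`, `sub B R` are the slopes and the
  intercepts of the lines with index in `R`.
-/

set_option autoImplicit false

open Finset

namespace Pool.Agent.Results.MP_a08d0a_co.RandomSubarrangements

open Pool.Agent.Results.MP_a08d0a_co.SmoothedLevel (Simple psi)

open Pool.Agent.Y344.KD (sub)

/-- The number of vertices of the `k`-level of the lines with index in `R`; it is `0` if `R` has at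
most `k` lines (there is no `k`-level). -/
noncomputable def vertices {n : ℕ} (a B : Fin n → ℝ) (k : ℕ) (R : Finset (Fin n)) : ℕ :=
  if k < #R then (psi (sub a R) (sub B R) k).toNat else 0

/-- the numbers of vertices are finite, so that `vertices` is the true number -/
theorem finite {n : ℕ} {a B : Fin n → ℝ} (hS : Simple a B) (k : ℕ) (R : Finset (Fin n))
    (hk : k < #R) : psi (sub a R) (sub B R) k ≠ ⊤ := by
  have h := (Pool.Agent.Y344.KD.random_deletions hS k (r := 1 / 2) (by norm_num) le_rfl).1 Rᶜ
  rw [compl_compl] at h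
  exact h hk

theorem average {n : ℕ} {a B : Fin n → ℝ} (hS : Simple a B) (k : ℕ) :
    ∑ R : Finset (Fin n), (vertices a B k R : ℝ) ≤
      2 ^ n * (2250 * n * ((k : ℝ) + 1) ^ (1 / 6 : ℝ)) := by
  have h := Pool.Agent.R769.KR.high_rate hS k (s := 1 / 2) le_rfl (by norm_num)
  have hk1 : (0 : ℝ) < (k : ℝ) + 1 := by positivity
  have e : ∀ R : Finset (Fin n), ((1 / 2 : ℝ)) ^ #R * (1 - 1 / 2) ^ (n - #R) *
      (Pool.Agent.R769.KR.lv a B k R : ℝ) = (1 / 2 : ℝ) ^ n * (vertices a B k R : ℝ) := by
    intro R
    have hc : #R ≤ n := by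
      have := Finset.card_le_univ R
      rwa [Fintype.card_fin] at this
    rw [show (1 : ℝ) - 1 / 2 = 1 / 2 by norm_num, ← pow_add, show #R + (n - #R) = n by omega]
    rfl
  rw [sum_congr rfl (fun R _ => e R), ← mul_sum] at h
  have h3 : (((k : ℝ) + 1) / (1 - 1 / 2)) ^ (1 / 6 : ℝ) ≤
      9 / 8 * ((k : ℝ) + 1) ^ (1 / 6 : ℝ) := by
    rw [show ((k : ℝ) + 1) / (1 - 1 / 2) = 2 * ((k : ℝ) + 1) by ring,
      Real.mul_rpow (by norm_num) hk1.le]
    apply mul_le_mul_of_nonneg_right _ (by positivity)
    have : ((2 : ℝ) ^ (1 / 6 : ℝ)) ^ 6 ≤ (9 / 8 : ℝ) ^ 6 := by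
      rw [← Real.rpow_natCast, ← Real.rpow_mul (by norm_num)]
      norm_num
    exact le_of_pow_le_pow_left₀ (by norm_num) (by norm_num) this
  have h4 : (0 : ℝ) < 2 ^ n := by positivity
  have h5 : ∑ R : Finset (Fin n), (vertices a B k R : ℝ) =
      2 ^ n * ((1 / 2 : ℝ) ^ n * ∑ R : Finset (Fin n), (vertices a B k R : ℝ)) := by
    rw [← mul_assoc, ← mul_pow, show (2 : ℝ) * (1 / 2) = 1 by norm_num, one_pow, one_mul]
  rw [h5]
  apply mul_le_mul_of_nonneg_left _ h4.le
  refine h.trans ?_
  calc 2000 * (n : ℝ) * (((k : ℝ) + 1) / (1 - 1 / 2)) ^ (1 / 6 : ℝ) ≤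
        2000 * (n : ℝ) * (9 / 8 * ((k : ℝ) + 1) ^ (1 / 6 : ℝ)) := by gcongr
    _ = _ := by ring

theorem most {n : ℕ} {a B : Fin n → ℝ} (hS : Simple a B) (k : ℕ) (t : ℝ) (ht : 0 < t) :
    t * (#{R : Finset (Fin n) | t * n * ((k : ℝ) + 1) ^ (1 / 6 : ℝ) < vertices a B k R} : ℝ) ≤
      2250 * 2 ^ n := by
  rcases Nat.eq_zero_or_pos n with h0 | h0
  · have he : ∀ R : Finset (Fin n),
        ¬ (t * n * ((k : ℝ) + 1) ^ (1 / 6 : ℝ) < (vertices a B k R : ℝ)) := by
      intro R
      have hR : #R ≤ 0 := by
        have := Finset.card_le_univ R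
        rw [Fintype.card_fin] at this
        omega
      have : vertices a B k R = 0 := by
        unfold vertices
        rw [if_neg (by omega)]
      rw [this, Nat.cast_zero, not_lt]
      positivity
    rw [filter_false_of_mem (fun R _ => he R), card_empty, Nat.cast_zero, mul_zero]
    positivity
  · have hn0 : (0 : ℝ) < n := by exact_mod_cast h0
    set G : ℝ := ((k : ℝ) + 1) ^ (1 / 6 : ℝ) with hG
    have hG0 : 0 < G := by positivity
    have hp : (0 : ℝ) < n * G := by positivity
    have h1 : (#{R : Finset (Fin n) | t * n * G < vertices a B k R} : ℝ) *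
        (t * n * G) ≤ ∑ R : Finset (Fin n), (vertices a B k R : ℝ) := by
      calc _ = ∑ R : Finset (Fin n) with t * n * G < vertices a B k R, (t * n * G) := by
            rw [sum_const, nsmul_eq_mul]
        _ ≤ ∑ R : Finset (Fin n) with t * n * G < vertices a B k R, (vertices a B k R : ℝ) :=
            sum_le_sum (fun R hR => (mem_filter.mp hR).2.le)
        _ ≤ _ := sum_le_sum_of_subset_of_nonneg (filter_subset _ _)
            (fun _ _ _ => Nat.cast_nonneg _)
    have h2 := h1.trans (average hS k)
    have h3 : (t * (#{R : Finset (Fin n) | t * n * G < vertices a B k R} : ℝ)) * (n * G) ≤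
        (2250 * 2 ^ n) * (n * G) := by
      rw [← hG] at h2
      linarith
    exact le_of_mul_le_mul_right h3 hp

/-- Let `n` lines be given, no two equal and no three concurrent, and let `k` be a natural number.
1. If every line survives independently with probability `s`, the `k`-level of the surviving lines
   has in the mean at most `4500 (s n) ((k + 1) / (1 - s)) ^ (1 / 6)` vertices.
2. Over all `2 ^ n` subfamilies, the `k`-level has in the mean at most
   `2250 n (k + 1) ^ (1 / 6)` vertices.
3. For every `t > 0`, at most `2250 * 2 ^ n / t` subfamilies have a `k`-level with more than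
   `t n (k + 1) ^ (1 / 6)` vertices. -/
theorem result : ∀ (n : ℕ) (a B : Fin n → ℝ), Simple a B → ∀ k : ℕ,
    (∀ R : Finset (Fin n), k < #R → psi (sub a R) (sub B R) k ≠ ⊤) ∧
    (∀ s : ℝ, 0 < s → s < 1 →
      ∑ R : Finset (Fin n), s ^ #R * (1 - s) ^ (n - #R) * (vertices a B k R : ℝ) ≤
        4500 * (s * n) * (((k : ℝ) + 1) / (1 - s)) ^ (1 / 6 : ℝ)) ∧
    (∑ R : Finset (Fin n), (vertices a B k R : ℝ) ≤
      2 ^ n * (2250 * n * ((k : ℝ) + 1) ^ (1 / 6 : ℝ))) ∧
    (∀ t : ℝ, 0 < t →
      t * (#{R : Finset (Fin n) | t * n * ((k : ℝ) + 1) ^ (1 / 6 : ℝ) < vertices a B k R} : ℝ) ≤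
        2250 * 2 ^ n) :=
  fun _ _ _ hS k => ⟨fun R hR => finite hS k R hR,
    fun _ h0 h1 => Pool.Agent.R769.KR.all_rates hS k h0 h1, average hS k, most hS k⟩

end Pool.Agent.Results.MP_a08d0a_co.RandomSubarrangements
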